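import Pool.Agent.H9.WMC.Alg

/-! # WMC, module ALG: the algebraic part of the theorem -/

set_option autoImplicit false

namespace Pool.H9.WMC

open MvPolynomial

namespace ALG

variable {k : Type} [Field k]

/-- replacing the forms of index `≥ j` by zero -/
def pad {j s a b : ℕ} (c : Fin (j + s) → Fin a → Fin b → k) : Fin (j + s) → Fin a → Fin b → k :=
  fun e i l => if (e : ℕ) < j then c e i l else 0

theorem pad_coef {S : Set k} (h0 : (0 : k) ∈ S) {j s a b : ℕ}
    {c : Fin (j + s) → Fin a → Fin b → k} (hc : Coef S c) : Coef S (pad c) := by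
  intro e i l
  unfold pad
  split_ifs
  · exact hc e i l
  · exact h0

theorem pad_zero {j s a b : ℕ} (c : Fin (j + s) → Fin a → Fin b → k) (e : Fin (j + s)) (i : Fin a)
    (l : Fin b) (h : j ≤ (e : ℕ)) : pad c e i l = 0 := by
  unfold pad
  rw [if_neg (by omega)]

theorem pad_cast {j s a b : ℕ} (c : Fin (j + s) → Fin a → Fin b → k) :
    (fun e : Fin j => pad c (Fin.castAdd s e)) = fun e : Fin j => c (Fin.castAdd s e) := by
  funext e i l
  unfold pad
  rw [if_pos (by simp)]

variable {P : Pred k} (hL : LinStmt P) (hP : Good P) (hPk : P k) (hEPR : EPRStmt)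
  (hFLA : FLAStmt) (hPAD : PADStmt)

include hL hP hPk hEPR hFLA

theorem epr (r a b : ℕ) (c : Fin r → Fin a → Fin b → k) :
    (∀ (j : ℕ) (hj : j ≤ r), P (Cub (fun e : Fin j => c (Fin.castLE hj e)))) ↔
      ∀ (j : ℕ) (hj : j ≤ r), P (Sec (fun e : Fin j => c (Fin.castLE hj e))) := by
  have h := hEPR P hP (MvPolynomial (Fin a ⊕ Fin b) k) r (bil c) inferInstance
    (hL.mv k (Fin a ⊕ Fin b) hPk)
  have e1 : (∀ (j : ℕ) (hj : j ≤ r), P (E (pre (bil c) j hj))) ↔
      ∀ (j : ℕ) (hj : j ≤ r), P (Cub (fun e : Fin j => c (Fin.castLE hj e))) := by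
    constructor
    · intro h j hj
      obtain ⟨f⟩ := (hFLA j a b (fun e : Fin j => c (Fin.castLE hj e))).1
      exact hP.iso _ _ f.symm (h j hj)
    · intro h j hj
      obtain ⟨f⟩ := (hFLA j a b (fun e : Fin j => c (Fin.castLE hj e))).1
      exact hP.iso _ _ f (h j hj)
  rw [← e1]
  exact h

theorem bd (S : Set k) (m : ℕ) : ClassB P S m ↔ ClassD P S m := by
  constructor
  · intro hB a b c hc
    obtain ⟨f⟩ := (hFLA m a b c).2
    refine hP.iso _ _ f.symm ?_
    have h := (epr hL hP hPk hEPR hFLA a m b (fun (i : Fin a) (e : Fin m) (j : Fin b) => c e i j)).2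
      (fun j hj => hB j b _ fun e i l => hc _ _ _)
    exact h a le_rfl
  · intro hD r b c hc
    have h := (epr hL hP hPk hEPR hFLA r m b c).1 (fun j hj => by
      obtain ⟨f⟩ := (hFLA j m b (fun e : Fin j => c (Fin.castLE hj e))).2
      refine hP.iso _ _ f.symm ?_
      exact hD j b _ fun e i l => hc _ _ _)
    exact h r le_rfl

include hPAD

theorem cd (S : Set k) (h0 : (0 : k) ∈ S) (m : ℕ) : ClassC P S m ↔ ClassD P S m := by
  constructor
  · intro hC a b c hc
    have h := (epr hL hP hPk hEPR hFLA m a b c).2 (fun j hj => by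
      obtain ⟨s, rfl⟩ := Nat.exists_eq_add_of_le hj
      have h1 := ((hPAD P hP j a b s (pad c) (pad_zero c)).1).1 (hC a b (pad c) (pad_coef h0 hc))
      rw [pad_cast] at h1
      exact h1)
    exact h m le_rfl
  · intro hD a b c hc
    have h := (epr hL hP hPk hEPR hFLA m a b c).1 (fun j hj => by
      obtain ⟨s, rfl⟩ := Nat.exists_eq_add_of_le hj
      have h1 := ((hPAD P hP j a b s (pad c) (pad_zero c)).2.1).1
        (hD a b (pad c) (pad_coef h0 hc))
      rw [pad_cast] at h1
      exact h1)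
    exact h m le_rfl

end ALG

theorem alg (hLIN : LINStmt) (hEPR : EPRStmt) (hFLA : FLAStmt) (hPAD : PADStmt) (hCON : CONStmt)
    (hREG : REGStmt) (hDEH : DEHStmt) (hCUT : CUTStmt) : ALGStmt := by
  intro k _ P hP hPk S hS m
  have hL := hLIN P hP
  have h0 : (0 : k) ∈ S := hS.1
  have hBD := ALG.bd hL hP hPk hEPR hFLA S (m + 1)
  have hCD := ALG.cd hL hP hPk hEPR hFLA hPAD S h0 (m + 1)
  refine ⟨hBD.trans hCD.symm, hCD, ?_, ?_⟩
  · constructor
    · exact fun h a b c hc => (hCON P hP hPk (m + 1) a b c).2 (h a b c hc)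
    · exact fun h a b c hc => (hCON P hP hPk (m + 1) a b c).1 (h a b c hc)
  · intro hB r f
    obtain ⟨t, b, c, hc, ⟨e⟩⟩ := hREG S hS m r f
    refine hCUT P hP hPk m r f ?_
    refine hP.iso _ _ e ?_
    refine hDEH P hP m t b c (hB t b c hc) ?_
    -- one variable less
    let c' : Fin (m + 1) → Fin t → Fin b → k :=
      fun e i j => if h : (e : ℕ) < m then c i (Fin.succ ⟨e, h⟩) j else 0
    have h1 := ((hPAD P hP m t b 1 c' (by
      intro e i j he
      show (if h : (e : ℕ) < m then c i (Fin.succ ⟨e, h⟩) j else 0) = 0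
      rw [dif_neg (by omega)])).2.2).1 (hB t b _ (by
        intro e i j
        show (if h : (i : ℕ) < m then c e (Fin.succ ⟨i, h⟩) j else 0) ∈ S
        split_ifs with h
        · exact hc _ _ _
        · exact h0))
    have e1 : (fun (i : Fin t) (e : Fin m) (j : Fin b) => c' (Fin.castAdd 1 e) i j) =
        fun (e : Fin t) (i : Fin m) (j : Fin b) => c e i.succ j := by
      funext i e j
      show (if h : ((Fin.castAdd 1 e : Fin (m + 1)) : ℕ) < m then
        c i (Fin.succ ⟨(Fin.castAdd 1 e : Fin (m + 1)), h⟩) j else 0) = _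
      rw [dif_pos (by simp)]
      rfl
    rw [e1] at h1
    exact h1

end Pool.H9.WMC
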