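import Pool.Agent.H9.WMC.Alg

/-! # WMC, module CUT: from `k[x, z_0] / (f_e z_0)` to `k[x] / (f_e)` -/

set_option autoImplicit false

namespace Pool.H9.WMC

open MvPolynomial

namespace CUT

variable {k : Type} [Field k] {R : Type} [CommRing R] [Algebra k R]

section

variable (I : Ideal R) (J : Ideal (Polynomial R))

/-- the map `R[X] → (R/I)[X]` -/
noncomputable def pi0 : Polynomial R →ₐ[k] Polynomial (R ⧸ I) :=
  Polynomial.mapAlgHom (Ideal.Quotient.mkₐ k I)

theorem pi0_surj : Function.Surjective (pi0 (k := k) I) :=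
  Polynomial.map_surjective _ Ideal.Quotient.mk_surjective

theorem pi0_ker (a : Polynomial R) (ha : pi0 (k := k) I a = 0) :
    a ∈ I.map (Polynomial.C : R →+* Polynomial R) := by
  have h : a ∈ RingHom.ker (Polynomial.mapRingHom (Ideal.Quotient.mk I)) := ha
  rw [Polynomial.ker_mapRingHom, Ideal.mk_ker] at h
  exact h

end

/-- the localization at `X` of a quotient of `R[X]` in which the kernel of the map to `(R/I)[X]` is
killed by `X` -/
theorem step {P : Pred k} (hL : LinStmt P) {I : Ideal R} {A : Type} [CommRing A] [Algebra k A]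
    (π : A →ₐ[k] Polynomial (R ⧸ I)) (hπ : Function.Surjective π) (h : A)
    (hX : π h = Polynomial.X) (hk : ∀ a, π a = 0 → h * a = 0)
    {Q : Type} [CommRing Q] [Algebra k Q] (ψ : A →ₐ[k] Q) (hψ : Function.Surjective ψ)
    (hker : RingHom.ker ψ = Ideal.span {h}) (hA : P A) (hQ : P Q) :
    P (Localization.Away (Polynomial.X : Polynomial (R ⧸ I))) := by
  let : Algebra A (Localization.Away (Polynomial.X : Polynomial (R ⧸ I))) :=
    ((algebraMap (Polynomial (R ⧸ I)) _).comp π.toRingHom).toAlgebra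
  have hmap : ∀ a : A, algebraMap A (Localization.Away (Polynomial.X : Polynomial (R ⧸ I))) a =
      algebraMap (Polynomial (R ⧸ I)) _ (π a) := fun a => rfl
  have hpow : ∀ n : ℕ, π (h ^ n) = Polynomial.X ^ n := by
    intro n
    rw [map_pow, hX]
  have hloc : IsLocalization.Away h (Localization.Away (Polynomial.X : Polynomial (R ⧸ I))) := by
    refine (isLocalization_iff _ _).2 ⟨?_, ?_, ?_⟩
    · rintro ⟨_, n, rfl⟩
      show IsUnit (algebraMap A _ (h ^ n))
      rw [hmap, hpow]
      exact IsLocalization.map_units _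
        (⟨Polynomial.X ^ n, n, rfl⟩ : Submonoid.powers (Polynomial.X : Polynomial (R ⧸ I)))
    · intro z
      obtain ⟨⟨p, ⟨_, n, rfl⟩⟩, hz⟩ := IsLocalization.surj
        (Submonoid.powers (Polynomial.X : Polynomial (R ⧸ I))) z
      obtain ⟨a, ha⟩ := hπ p
      refine ⟨(a, ⟨h ^ n, n, rfl⟩), ?_⟩
      show z * algebraMap A _ (h ^ n) = algebraMap A _ a
      rw [hmap, hmap, hpow, ha]
      exact hz
    · intro a b hab
      rw [hmap, hmap] at hab
      obtain ⟨⟨_, n, rfl⟩, hc⟩ := IsLocalization.exists_of_eq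
        (M := Submonoid.powers (Polynomial.X : Polynomial (R ⧸ I))) hab
      have hc' : Polynomial.X ^ n * π a = Polynomial.X ^ n * π b := hc
      have hab' : π a = π b := by
        have h1 : Polynomial.X ^ n * (π a - π b) = 0 := by rw [mul_sub, hc', sub_self]
        have h2 := (Polynomial.monic_X_pow n).mul_right_eq_zero_iff.1 h1
        exact sub_eq_zero.1 h2
      refine ⟨⟨h, 1, pow_one h⟩, ?_⟩
      show h * a = h * b
      have h3 := hk (a - b) (by rw [map_sub, hab', sub_self])
      rw [mul_sub] at h3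
      exact sub_eq_zero.1 h3
  have htow : IsScalarTower k A (Localization.Away (Polynomial.X : Polynomial (R ⧸ I))) := by
    refine IsScalarTower.of_algebraMap_eq fun x => ?_
    show _ = algebraMap (Polynomial (R ⧸ I)) _ (π (algebraMap k _ x))
    rw [AlgHom.commutes]
    exact IsScalarTower.algebraMap_apply k (Polynomial (R ⧸ I)) _ x
  exact hL.opn' A (Localization.Away (Polynomial.X : Polynomial (R ⧸ I))) Q h ψ hψ hker hA hQ


variable (k) in
theorem main {P : Pred k} (hL : LinStmt P) (hP : Good P) {r : ℕ} (f : Fin r → R)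
    (hA : P (Polynomial R ⧸ Ideal.span (Set.range fun e => Polynomial.C (f e) * Polynomial.X)))
    (hR : P R) : P (R ⧸ Ideal.span (Set.range f)) := by
  obtain ⟨I, hI⟩ : ∃ I : Ideal R, I = Ideal.span (Set.range f) := ⟨_, rfl⟩
  obtain ⟨J, hJ⟩ : ∃ J : Ideal (Polynomial R),
      J = Ideal.span (Set.range fun e => Polynomial.C (f e) * Polynomial.X) := ⟨_, rfl⟩
  rw [← hI]
  rw [← hJ] at hA
  have hJ0 : ∀ a ∈ J, pi0 (k := k) I a = 0 := by
    intro a ha
    have : J ≤ RingHom.ker (pi0 (k := k) I) := by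
      rw [hJ, Ideal.span_le]
      rintro _ ⟨e, rfl⟩
      have h1 : (Ideal.Quotient.mk I (f e)) = 0 :=
        Ideal.Quotient.eq_zero_iff_mem.2 (hI ▸ Ideal.subset_span ⟨e, rfl⟩)
      show Polynomial.map (Ideal.Quotient.mk I) (Polynomial.C (f e) * Polynomial.X) = 0
      rw [Polynomial.map_mul, Polynomial.map_C, h1, Polynomial.C_0, zero_mul]
    exact this ha
  have hπ : Function.Surjective (Ideal.Quotient.liftₐ J (pi0 (k := k) I) hJ0) := by
    intro p
    obtain ⟨a, ha⟩ := pi0_surj (k := k) I p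
    exact ⟨Ideal.Quotient.mk J a, ha⟩
  have hX : Ideal.Quotient.liftₐ J (pi0 (k := k) I) hJ0
      (Ideal.Quotient.mk J Polynomial.X) = Polynomial.X := by
    show Polynomial.map (Ideal.Quotient.mk I) Polynomial.X = Polynomial.X
    rw [Polynomial.map_X]
  have hIJ : ∀ a ∈ I.map (Polynomial.C : R →+* Polynomial R), Polynomial.X * a ∈ J := by
    intro a ha
    rw [hI, Ideal.map_span] at ha
    refine Submodule.span_induction (p := fun x _ => Polynomial.X * x ∈ J) ?_ ?_ ?_ ?_ ha
    · rintro _ ⟨_, ⟨e, rfl⟩, rfl⟩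
      rw [mul_comm, hJ]
      exact Ideal.subset_span ⟨e, rfl⟩
    · rw [mul_zero]
      exact J.zero_mem
    · intro x y _ _ hx hy
      rw [mul_add]
      exact J.add_mem hx hy
    · intro c x _ hx
      rw [smul_eq_mul, mul_left_comm]
      exact J.mul_mem_left _ hx
  have hk : ∀ a, Ideal.Quotient.liftₐ J (pi0 (k := k) I) hJ0 a = 0 →
      Ideal.Quotient.mk J Polynomial.X * a = 0 := by
    intro a ha
    obtain ⟨a, rfl⟩ := Ideal.Quotient.mk_surjective a
    have h1 := pi0_ker (k := k) I a ha
    rw [← map_mul, Ideal.Quotient.eq_zero_iff_mem]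
    exact hIJ a h1
  have hev0 : ∀ a ∈ J, (Polynomial.aeval (R := R) (0 : R)).restrictScalars k a = 0 := by
    intro a ha
    have : J ≤ RingHom.ker ((Polynomial.aeval (R := R) (0 : R)).restrictScalars k) := by
      rw [hJ, Ideal.span_le]
      rintro _ ⟨e, rfl⟩
      show Polynomial.aeval (0 : R) (Polynomial.C (f e) * Polynomial.X) = 0
      simp
    exact this ha
  have hψ : Function.Surjective (Ideal.Quotient.liftₐ J
      ((Polynomial.aeval (R := R) (0 : R)).restrictScalars k) hev0) := by
    intro a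
    refine ⟨Ideal.Quotient.mk J (Polynomial.C a), ?_⟩
    show Polynomial.aeval (0 : R) (Polynomial.C a) = a
    simp
  have hker : RingHom.ker (Ideal.Quotient.liftₐ J
      ((Polynomial.aeval (R := R) (0 : R)).restrictScalars k) hev0) =
      Ideal.span {Ideal.Quotient.mk J Polynomial.X} := by
    apply le_antisymm
    · intro a ha
      obtain ⟨a, rfl⟩ := Ideal.Quotient.mk_surjective a
      have h1 : Polynomial.aeval (0 : R) a = 0 := ha
      have h2 : a.coeff 0 = 0 := by
        rw [Polynomial.coeff_zero_eq_aeval_zero]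
        exact h1
      obtain ⟨b, rfl⟩ := Polynomial.X_dvd_iff.2 h2
      exact Ideal.mem_span_singleton.2 ⟨Ideal.Quotient.mk J b, map_mul _ _ _⟩
    · rw [Ideal.span_le]
      rintro _ rfl
      show Polynomial.aeval (0 : R) (Polynomial.X : Polynomial R) = 0
      simp
  exact hP.gm _ (step hL _ hπ _ hX hk _ hψ hker hA hR)

end CUT

theorem cut (hLIN : LINStmt) : CUTStmt := by
  intro k _ P hP hPk m r f hA
  have hL := hLIN P hP
  exact CUT.main k hL hP f hA (hL.mv k (Fin m) hPk)

end Pool.H9.WMC
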